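import Pool.Agent.H19.NewtC

set_option maxHeartbeats 400000

namespace Pool.Agent.Results.MP_3dabd4_an.Zero

open Polynomial

/-- The operator `d(P) = c P + P'`. -/
noncomputable def d (c : ℂ) (P : ℂ[X]) : ℂ[X] := C c * P + derivative P

theorem result (P : ℂ[X]) (c : ℂ) (hP : 0 < P.natDegree)
    (hs : ∀ z : ℂ, P.eval z = 0 → (derivative P).eval z ≠ 0)
    (hZ : ∀ z : ℂ, (d c (d c P)).eval z = 0 → P.eval z = 0 ∨ (d c P).eval z = 0) :
    c = 0 := by
  by_contra hc
  obtain ⟨p, hp⟩ := Complex.exists_root (natDegree_pos_iff_degree_pos.1 hP)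
  refine Pool.Agent.H19.Newt.main P (C c) (by simpa using hc) hs hp fun z hD h0 => ?_
  by_contra hPz
  have h1 : (d c (d c P)).eval z = 0 := by
    have h2 : (d c (d c P)).eval z
        = c * (C c * P + derivative P).eval z + (derivative (C c * P + derivative P)).eval z := by
      simp [d]
    have h3 : (C c * P + derivative P).eval z = c * P.eval z + (derivative P).eval z := by simp
    simp only [Pool.Agent.H19.Newt.ND] at h0
    generalize (derivative (C c * P + derivative P)).eval z = e at *
    generalize (C c * P + derivative P).eval z = f at *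
    field_simp at h0
    apply mul_left_cancel₀ hPz
    rw [h2]
    linear_combination h0 - f * h3
  rcases hZ z h1 with h | h
  · exact hPz h
  · exact hD h

end Pool.Agent.Results.MP_3dabd4_an.Zero
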